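import Pool.Agent.Q79.KX.Stm
import Pool.Agent.Q79.KvI

/-!
# Project KX, job NL: norms and cyclotomic factors
-/

set_option autoImplicit false

open Finset Polynomial

namespace Pool.Agent.Q128.KX

open Pool.Agent.Q79.KV Pool.Agent.Q79.KX

/-- the congruence modulo `p` -/
theorem cyc_congr {m p a : ℕ} (hp : p.Prime) (hpm : ¬ p ∣ m) (ha : 1 ≤ a) :
    ∃ (k : ℕ) (R : ℤ[X]), 1 ≤ k ∧
      cyclotomic (2 * (m * p ^ a)) ℤ = cyclotomic (2 * m) ℤ ^ k + C (p : ℤ) * R := by
  have hF : Fact p.Prime := ⟨hp⟩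
  obtain ⟨k, hk, hkc⟩ : ∃ k : ℕ, 1 ≤ k ∧ cyclotomic (2 * (m * p ^ a)) (ZMod p) =
      cyclotomic (2 * m) (ZMod p) ^ k := by
    by_cases h2 : p = 2
    · subst h2
      have h1 := cyclotomic_mul_prime_pow_eq (ZMod 2) hpm (k := a + 1) (by omega)
      have h3 := cyclotomic_mul_prime_pow_eq (ZMod 2) hpm (k := 1) (by omega)
      refine ⟨2 ^ (a + 1) - 2 ^ (a + 1 - 1), ?_, ?_⟩
      · rw [Nat.add_sub_cancel, pow_succ]
        have := Nat.one_le_two_pow (n := a)
        omega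
      · have e1 : 2 * (m * 2 ^ a) = 2 ^ (a + 1) * m := by ring
        have e2 : 2 * m = 2 ^ 1 * m := by ring
        rw [e1, e2, h1, h3]
        simp
    · have h2m : ¬ p ∣ 2 * m := by
        intro h
        rcases hp.dvd_mul.1 h with h | h
        · exact h2 ((Nat.prime_dvd_prime_iff_eq hp Nat.prime_two).1 h)
        · exact hpm h
      have h1 := cyclotomic_mul_prime_pow_eq (ZMod p) h2m (k := a) (by omega)
      refine ⟨p ^ a - p ^ (a - 1), ?_, ?_⟩
      · have : p ^ (a - 1) < p ^ a := Nat.pow_lt_pow_right hp.one_lt (by omega)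
        omega
      · have e1 : 2 * (m * p ^ a) = p ^ a * (2 * m) := by ring
        rw [e1, h1]
  have hdvd : C (p : ℤ) ∣ cyclotomic (2 * (m * p ^ a)) ℤ - cyclotomic (2 * m) ℤ ^ k := by
    rw [C_dvd_iff_dvd_coeff]
    intro i
    rw [← ZMod.intCast_zmod_eq_zero_iff_dvd]
    have h1 : (cyclotomic (2 * (m * p ^ a)) ℤ - cyclotomic (2 * m) ℤ ^ k).map
        (Int.castRingHom (ZMod p)) = 0 := by
      rw [Polynomial.map_sub, Polynomial.map_pow, map_cyclotomic_int, map_cyclotomic_int, hkc,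
        sub_self]
    have h2 : ((cyclotomic (2 * (m * p ^ a)) ℤ - cyclotomic (2 * m) ℤ ^ k).map
        (Int.castRingHom (ZMod p))).coeff i = 0 := by rw [h1, coeff_zero]
    rw [coeff_map] at h2
    exact h2
  obtain ⟨R, hR⟩ := hdvd
  exact ⟨k, R, hk, by rw [← hR]; ring⟩

/-- the norm of one factor -/
theorem norm_cyc {m p a : ℕ} (hm : 1 ≤ m) (hp : p.Prime) (hpm : ¬ p ∣ m) (ha : 1 ≤ a) (v : ℂ)
    (hv : IsPrimitiveRoot v (2 * m)) : (p : ℝ) ^ Nat.totient (2 * m) ≤
      ∏ v ∈ primitiveRoots (2 * m) ℂ, ‖aeval v (cyclotomic (2 * (m * p ^ a)) ℤ)‖ := by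
  obtain ⟨k, R, hk, hR⟩ := cyc_congr hp hpm ha
  have hval : ∀ w ∈ primitiveRoots (2 * m) ℂ,
      aeval w (cyclotomic (2 * (m * p ^ a)) ℤ) = p * aeval w R := by
    intro w hw
    have hw' : IsPrimitiveRoot w (2 * m) := isPrimitiveRoot_of_mem_primitiveRoots hw
    have h1 : aeval w (cyclotomic (2 * m) ℤ) = 0 := by
      have h2 := hw'.isRoot_cyclotomic (by omega)
      rw [IsRoot.def, ← map_cyclotomic_int, eval_map] at h2
      rw [aeval_def, algebraMap_int_eq]
      exact h2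
    rw [hR, map_add, map_pow, h1, zero_pow (by omega), zero_add, map_mul, aeval_C]
    simp
  have hR0 : aeval v R ≠ 0 := by
    intro h
    have h1 := hval v ((mem_primitiveRoots (by omega)).2 hv)
    rw [h, mul_zero] at h1
    have h2 : (cyclotomic (2 * (m * p ^ a)) ℂ).IsRoot v := by
      rw [IsRoot.def, ← map_cyclotomic_int, eval_map]
      rw [aeval_def, algebraMap_int_eq] at h1
      exact h1
    have hpos : 0 < 2 * (m * p ^ a) := by
      have := pow_pos hp.pos a
      positivity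
    have hne : NeZero ((2 * (m * p ^ a) : ℕ) : ℂ) := ⟨Nat.cast_ne_zero.2 hpos.ne'⟩
    rw [isRoot_cyclotomic_iff] at h2
    have h3 := h2.unique hv
    have h4 : 1 < p ^ a := Nat.one_lt_pow (by omega) hp.one_lt
    have h5 : 2 * m * p ^ a = 2 * m * 1 := by
      rw [mul_one, mul_assoc]
      exact h3
    have h6 := Nat.eq_of_mul_eq_mul_left (by omega : 0 < 2 * m) h5
    omega
  have h1 := prod_norm_gen (m := 2 * m) (by omega) hv hR0
  rw [Finset.prod_congr rfl fun w hw => by rw [hval w hw, norm_mul, Complex.norm_natCast]]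
  rw [Finset.prod_mul_distrib, Finset.prod_const, Complex.card_primitiveRoots]
  exact le_mul_of_one_le_right (by positivity) h1

/-- **Job NL.** -/
theorem nl : S_NL := by
  intro m hm A v hv hA T a e hT
  have hirr : ∀ p ∈ T, Irreducible (cyclotomic (2 * (m * p ^ a p)) ℤ) := by
    intro p hp
    refine cyclotomic.irreducible ?_
    have := pow_pos (hT p hp).1.pos (a p)
    positivity
  have hdvd : ∏ p ∈ T, cyclotomic (2 * (m * p ^ a p)) ℤ ^ e p ∣ A := by
    refine Finset.prod_dvd_of_isRelPrime ?_ fun p hp => (hT p hp).2.2.2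
    intro p hp q hq hpq
    refine IsRelPrime.pow ?_
    rw [(hirr p hp).isRelPrime_iff_not_dvd]
    intro hd
    have h1 : Associated (cyclotomic (2 * (m * p ^ a p)) ℤ) (cyclotomic (2 * (m * q ^ a q)) ℤ) :=
      (hirr p hp).associated_of_dvd (hirr q hq) hd
    have h2 := eq_of_monic_of_associated (cyclotomic.monic _ ℤ) (cyclotomic.monic _ ℤ) h1
    have h3 := cyclotomic_injective h2
    have h4 : p ^ a p = q ^ a q := by
      have h5 : 2 * m * p ^ a p = 2 * m * q ^ a q := by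
        calc 2 * m * p ^ a p = 2 * (m * p ^ a p) := by ring
          _ = 2 * (m * q ^ a q) := h3
          _ = 2 * m * q ^ a q := by ring
      exact Nat.eq_of_mul_eq_mul_left (by omega : 0 < 2 * m) h5
    have h6 : p ∣ q ^ a q := by
      rw [← h4]
      exact dvd_pow_self p (by have := (hT p hp).2.2.1; omega)
    exact hpq ((Nat.prime_dvd_prime_iff_eq (hT p hp).1 (hT q hq).1).1
      ((hT p hp).1.dvd_of_dvd_pow h6))
  obtain ⟨Q, hQ⟩ := hdvd
  have hQ0 : aeval v Q ≠ 0 := by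
    intro h
    apply hA
    rw [hQ, map_mul, h, mul_zero]
  have h1 := prod_norm_gen (m := 2 * m) (by omega) hv hQ0
  have h2 : ∏ w ∈ primitiveRoots (2 * m) ℂ, ‖aeval w A‖ =
      (∏ p ∈ T, (∏ w ∈ primitiveRoots (2 * m) ℂ,
        ‖aeval w (cyclotomic (2 * (m * p ^ a p)) ℤ)‖) ^ e p) *
      ∏ w ∈ primitiveRoots (2 * m) ℂ, ‖aeval w Q‖ := by
    have h3 : ∀ w ∈ primitiveRoots (2 * m) ℂ, ‖aeval w A‖ =
        (∏ p ∈ T, ‖aeval w (cyclotomic (2 * (m * p ^ a p)) ℤ)‖ ^ e p) * ‖aeval w Q‖ := by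
      intro w _
      rw [hQ, map_mul, norm_mul, map_prod, norm_prod]
      congr 1
      refine Finset.prod_congr rfl fun p _ => ?_
      rw [map_pow, norm_pow]
    rw [Finset.prod_congr rfl h3, Finset.prod_mul_distrib, Finset.prod_comm]
    congr 1
    refine Finset.prod_congr rfl fun p _ => ?_
    rw [Finset.prod_pow]
  have hpp : ∀ p ∈ T, (0 : ℝ) < (p : ℝ) := fun p hp => by exact_mod_cast (hT p hp).1.pos
  have h4 : ∏ p ∈ T, ((p : ℝ) ^ Nat.totient (2 * m)) ^ e p ≤
      ∏ w ∈ primitiveRoots (2 * m) ℂ, ‖aeval w A‖ := by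
    rw [h2]
    have h5 : ∏ p ∈ T, ((p : ℝ) ^ Nat.totient (2 * m)) ^ e p ≤
        ∏ p ∈ T, (∏ w ∈ primitiveRoots (2 * m) ℂ,
          ‖aeval w (cyclotomic (2 * (m * p ^ a p)) ℤ)‖) ^ e p := by
      refine Finset.prod_le_prod (fun p _ => by positivity) fun p hp => ?_
      obtain ⟨hp1, hp2, hp3, -⟩ := hT p hp
      exact pow_le_pow_left₀ (by positivity) (norm_cyc hm hp1 hp2 hp3 v hv) _
    refine h5.trans (le_mul_of_one_le_right ?_ h1)
    exact Finset.prod_nonneg fun p _ => pow_nonneg (Finset.prod_nonneg fun w _ => norm_nonneg _) _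
  have h5 : 0 < ∏ p ∈ T, ((p : ℝ) ^ Nat.totient (2 * m)) ^ e p :=
    Finset.prod_pos fun p hp => by have := hpp p hp; positivity
  have h6 := Real.log_le_log h5 h4
  refine le_trans (le_of_eq ?_) h6
  rw [Real.log_prod (fun p hp => by have := hpp p hp; positivity), Finset.mul_sum]
  refine Finset.sum_congr rfl fun p _ => ?_
  rw [Real.log_pow, Real.log_pow]
  ring

end Pool.Agent.Q128.KX
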