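import Pool.Agent.Q79.KX.Stm
import Pool.Agent.Q79.KvI
import Pool.Agent.Q79.KvG
import Pool.Agent.Q79.KvE

/-!
# Project KX, job SZ1: quantum factorials near a root of unity
-/

set_option autoImplicit false

open Finset Polynomial

namespace Pool.Agent.Q128.KX

open Pool.Agent.Q79.KV Pool.Agent.Q79.KX

/-- a number near `μ` -/
theorem near_exp {x μ y : ℝ} (hμ : 0 ≤ μ) (hy0 : 0 ≤ y) (hy1 : y ≤ 1) (h : |x - μ| ≤ μ * (y / 2)) :
    μ * Real.exp (-y) ≤ x ∧ x ≤ μ * Real.exp y := by
  have h1 := abs_le.1 h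
  have h2 : 1 + y ≤ Real.exp y := by linarith [Real.add_one_le_exp y]
  have h3 : Real.exp (-y) ≤ 1 - y / 2 := by
    have h4 : Real.exp (-y) * Real.exp y = 1 := by rw [← Real.exp_add]; simp
    have h5 : 0 < Real.exp (-y) := Real.exp_pos _
    have h6 : Real.exp (-y) * (1 + y) ≤ 1 := by
      calc Real.exp (-y) * (1 + y) ≤ Real.exp (-y) * Real.exp y :=
            mul_le_mul_of_nonneg_left h2 h5.le
        _ = 1 := h4
    have h7 : 1 ≤ (1 - y / 2) * (1 + y) := by nlinarith
    have h8 : Real.exp (-y) * (1 + y) ≤ (1 - y / 2) * (1 + y) := h6.trans h7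
    exact le_of_mul_le_mul_right h8 (by linarith)
  constructor
  · have := mul_le_mul_of_nonneg_left h3 hμ
    nlinarith
  · have := mul_le_mul_of_nonneg_left h2 hμ
    nlinarith

/-- the lower bound for `1 - ζ ^ k` -/
theorem one_sub_ge {m : ℕ} (hm : 1 ≤ m) {ζ : ℂ} (hζ : IsPrimitiveRoot ζ m) {k : ℕ}
    (hk : ¬ m ∣ k) : 2 / (m : ℝ) ≤ ‖1 - ζ ^ k‖ := by
  have hm0 : (0 : ℝ) < m := by exact_mod_cast hm
  have hexp : IsPrimitiveRoot (Complex.exp (2 * Real.pi * Complex.I / m)) m :=
    Complex.isPrimitiveRoot_exp m (by omega)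
  have h1 : (ζ ^ k) ^ m = 1 := by rw [← pow_mul, mul_comm, pow_mul, hζ.pow_eq_one, one_pow]
  have hne : NeZero m := ⟨by omega⟩
  obtain ⟨b, hb, hbe⟩ := hexp.eq_pow_of_pow_eq_one h1
  have hb0 : 0 < b := by
    rcases Nat.eq_zero_or_pos b with h | h
    · exfalso
      rw [h, pow_zero] at hbe
      exact hk ((hζ.pow_eq_one_iff_dvd k).1 hbe.symm)
    · exact h
  have h2 := norm_ge hb0 hb
  rw [hbe] at h2
  refine le_trans ?_ h2
  have h3 : (1 : ℝ) ≤ ((min b (m - b) : ℕ) : ℝ) := by
    have : 1 ≤ min b (m - b) := by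
      rw [le_min_iff]
      omega
    exact_mod_cast this
  refine div_le_div_of_nonneg_right ?_ hm0.le
  linarith

/-- the norms of the quantum integers -/
theorem norm_br_mod {m : ℕ} {v : ℂ} (hv : IsPrimitiveRoot v (2 * m)) (hv1 : ‖v‖ = 1) (k : ℕ) :
    ‖br v (((k + m : ℕ) : ℤ))‖ = ‖br v ((k : ℤ))‖ := by
  rw [norm_br hv1, norm_br hv1]
  have h : (v ^ 2) ^ m = 1 := by rw [← pow_mul]; exact hv.pow_eq_one
  rw [pow_add, h, mul_one]

/-- the model of the norms -/
noncomputable def mo (m : ℕ) (ρ : ℝ) (v : ℂ) (k : ℕ) : ℝ :=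
  if m ∣ k then 2 * k * ρ else ‖br v (k : ℤ)‖

theorem mo_nonneg (m : ℕ) {ρ : ℝ} (hρ : 0 ≤ ρ) (v : ℂ) (k : ℕ) : 0 ≤ mo m ρ v k := by
  unfold mo
  split_ifs
  · positivity
  · exact norm_nonneg _

theorem prod_mo {m : ℕ} (hm : 1 ≤ m) {v : ℂ} (hv : IsPrimitiveRoot v (2 * m)) (hv1 : ‖v‖ = 1)
    (ρ : ℝ) (a : ℕ) : ∏ k ∈ range a, mo m ρ v (k + 1) =
      (2 * (m : ℝ) ^ 2 * ρ) ^ (a / m) * (a / m).factorial * ‖brf v (a % m)‖ := by
  have hζ : IsPrimitiveRoot (v ^ 2) m := hv.pow (by omega) rfl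
  have hper : ∀ (q k : ℕ), ‖br v (((k + m * q : ℕ) : ℤ))‖ = ‖br v ((k : ℤ))‖ := by
    intro q k
    induction q with
    | zero => rw [mul_zero, add_zero]
    | succ q ih =>
      rw [mul_add, mul_one, ← add_assoc, norm_br_mod hv hv1, ih]
  have hblock : ‖brf v (m - 1)‖ = m := by
    rw [norm_brf hv1, ← norm_prod]
    obtain ⟨n, rfl⟩ : ∃ n, m = n + 1 := ⟨m - 1, by omega⟩
    rw [Nat.add_sub_cancel, hζ.prod_one_sub_pow_eq_order]
    have : ((n : ℂ) + 1) = ((n + 1 : ℕ) : ℂ) := by push_cast; rfl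
    rw [this, Complex.norm_natCast]
  induction a with
  | zero =>
    rw [range_zero, prod_empty, Nat.zero_div, Nat.zero_mod, pow_zero, Nat.factorial_zero]
    unfold brf
    simp
  | succ a ih =>
    rw [Finset.prod_range_succ, ih]
    have hdm := Nat.div_add_mod a m
    have hlt := Nat.mod_lt a (show m > 0 by omega)
    rcases Nat.lt_or_ge (a % m + 1) m with h | h
    · -- no multiple
      have e1 : (a + 1) % m = a % m + 1 := by
        conv_lhs => rw [← hdm]
        rw [add_assoc, Nat.mul_add_mod]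
        exact Nat.mod_eq_of_lt h
      have e2 : (a + 1) / m = a / m := by
        conv_lhs => rw [← hdm]
        rw [add_assoc, Nat.mul_add_div (by omega), Nat.div_eq_of_lt h, add_zero]
      have e3 : ¬ m ∣ a + 1 := by
        intro hd
        have := Nat.mod_eq_zero_of_dvd hd
        omega
      unfold mo
      rw [if_neg e3, e1, e2, brf_succ, norm_mul]
      have e4 : a + 1 = (a % m + 1) + m * (a / m) := by omega
      have e5 : ‖br v ((a + 1 : ℕ) : ℤ)‖ = ‖br v (((a % m : ℕ) : ℤ) + 1)‖ := by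
        conv_lhs => rw [e4]
        rw [hper]
        congr 2
      rw [e5]
      ring
    · have e0 : a % m + 1 = m := by omega
      have e1 : (a + 1) % m = 0 := by
        conv_lhs => rw [← hdm]
        rw [add_assoc, Nat.mul_add_mod, e0, Nat.mod_self]
      have e2 : (a + 1) / m = a / m + 1 := by
        conv_lhs => rw [← hdm]
        rw [add_assoc, Nat.mul_add_div (by omega), e0, Nat.div_self (by omega)]
      have e3 : m ∣ a + 1 := Nat.dvd_of_mod_eq_zero e1
      have e4 : a % m = m - 1 := by omega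
      have e6 : ((a + 1 : ℕ) : ℝ) = m * ((a / m : ℕ) + 1 : ℝ) := by
        have : a + 1 = m * (a / m + 1) := by
          rw [mul_add, mul_one]
          omega
        rw [this]
        push_cast
        ring
      unfold mo
      rw [if_pos e3, e1, e2, e4, hblock, e6, Nat.factorial_succ]
      unfold brf
      rw [range_zero, prod_empty, norm_one]
      push_cast
      ring

/-- the comparison of one factor -/
theorem factor_near {m i : ℕ} (hm : 1 ≤ m) {v s : ℂ} {u : ℂˣ} (hv : IsPrimitiveRoot v (2 * m))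
    (hv1 : ‖v‖ = 1) (hs : ‖s‖ = 1 / (16 * ((m * (i + 1) : ℕ) : ℝ) ^ 3))
    (hu : (u : ℂ) = v * Complex.exp s) {k : ℕ} (hk0 : 0 < k) (hk : k < m * (i + 1)) :
    |‖brR u (k : ℤ)‖ - mo m ‖s‖ v k| ≤
      mo m ‖s‖ v k * (1 / (4 * ((m * (i + 1) : ℕ) : ℝ)) / 2) := by
  obtain ⟨L, hL⟩ : ∃ L : ℝ, L = ((m * (i + 1) : ℕ) : ℝ) := ⟨_, rfl⟩
  rw [← hL] at hs ⊢
  have hmL : (m : ℝ) ≤ L := by
    rw [hL]
    exact_mod_cast Nat.le_mul_of_pos_right m (Nat.succ_pos i)
  have hm1 : (1 : ℝ) ≤ m := by exact_mod_cast hm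
  have hL1 : 1 ≤ L := hm1.trans hmL
  have hkL : (k : ℝ) ≤ L := by
    rw [hL]
    exact_mod_cast hk.le
  have hk1 : (1 : ℝ) ≤ k := by exact_mod_cast hk0
  obtain ⟨ρ, hρ⟩ : ∃ ρ, ρ = ‖s‖ := ⟨_, rfl⟩
  rw [← hρ] at hs ⊢
  have hρL : ρ * (16 * L ^ 3) = 1 := by
    rw [hs]
    field_simp
  have hρ0 : 0 < ρ := by
    rw [hs]
    positivity
  have hρLL : 16 * (ρ * L * L) * L = 1 := by
    rw [← hρL]
    ring
  have hρLL' : 16 * (ρ * L * L) ≤ 1 := by
    have h0 : 0 < 16 * (ρ * L * L) := by positivity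
    nlinarith
  have hkρ : (k : ℝ) * ρ ≤ 1 / 16 := by
    have h1 : (k : ℝ) * ρ ≤ ρ * L * L := by
      calc (k : ℝ) * ρ ≤ L * ρ := mul_le_mul_of_nonneg_right hkL hρ0.le
        _ ≤ L * ρ * L := le_mul_of_one_le_right (by positivity) hL1
        _ = ρ * L * L := by ring
    linarith
  have hv0 : v ≠ 0 := by
    intro h
    rw [h, norm_zero] at hv1
    exact zero_ne_one hv1
  -- the value
  have hval : brR u (k : ℤ) = v ^ k * Complex.exp (k * s) - (v ^ k)⁻¹ * Complex.exp (-(k * s)) := by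
    unfold brR
    rw [Units.val_zpow_eq_zpow_val, Units.val_zpow_eq_zpow_val, hu, zpow_neg, zpow_natCast,
      mul_pow, mul_inv, ← Complex.exp_nat_mul, ← Complex.exp_neg]
  have hvk : ‖v ^ k‖ = 1 := by rw [norm_pow, hv1, one_pow]
  have hns : ‖(k : ℂ) * s‖ = k * ρ := by rw [norm_mul, Complex.norm_natCast, hρ]
  by_cases hd : m ∣ k
  · have hmo : mo m ρ v k = 2 * k * ρ := by
      unfold mo
      rw [if_pos hd]
    rw [hmo]
    have hinv : (v ^ k)⁻¹ = v ^ k := by
      obtain ⟨q, rfl⟩ := hd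
      have h1 : v ^ (m * q) * v ^ (m * q) = 1 := by
        rw [← pow_add, ← two_mul, ← mul_assoc, pow_mul, hv.pow_eq_one, one_pow]
      exact inv_eq_of_mul_eq_one_left h1
    have h1 : ‖brR u (k : ℤ)‖ = ‖Complex.exp (k * s) - Complex.exp (-(k * s))‖ := by
      rw [hval, hinv, ← mul_sub, norm_mul, hvk, one_mul]
    have h2 : ‖Complex.exp (k * s) - 1 - k * s‖ ≤ (k * ρ) ^ 2 := by
      have := Complex.norm_exp_sub_one_sub_id_le (x := k * s) (by rw [hns]; linarith)
      rwa [hns] at this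
    have h3 : ‖Complex.exp (-(k * s)) - 1 - -(k * s)‖ ≤ (k * ρ) ^ 2 := by
      have := Complex.norm_exp_sub_one_sub_id_le (x := -(k * s)) (by rw [norm_neg, hns]; linarith)
      rwa [norm_neg, hns] at this
    have h4 : ‖(Complex.exp (k * s) - Complex.exp (-(k * s))) - 2 * (k * s)‖ ≤
        2 * (k * ρ) ^ 2 := by
      have e : (Complex.exp (k * s) - Complex.exp (-(k * s))) - 2 * (k * s) =
          (Complex.exp (k * s) - 1 - k * s) - (Complex.exp (-(k * s)) - 1 - -(k * s)) := by ring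
      rw [e]
      refine (norm_sub_le _ _).trans ?_
      linarith
    have h5 : ‖2 * ((k : ℂ) * s)‖ = 2 * k * ρ := by
      rw [norm_mul, hns]
      simp
      ring
    have h6 := abs_norm_sub_norm_le (Complex.exp (k * s) - Complex.exp (-(k * s)))
      (2 * ((k : ℂ) * s))
    rw [h5, ← h1] at h6
    refine h6.trans (h4.trans ?_)
    have h7 : (k : ℝ) * ρ ≤ 1 / (4 * L) / 2 := by
      rw [div_div, le_div_iff₀ (by positivity)]
      have h8 : (k : ℝ) * ρ * L ≤ ρ * L * L := by
        calc (k : ℝ) * ρ * L ≤ L * ρ * L := by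
              exact mul_le_mul_of_nonneg_right (mul_le_mul_of_nonneg_right hkL hρ0.le)
                (by linarith)
          _ = ρ * L * L := by ring
      nlinarith
    calc 2 * ((k : ℝ) * ρ) ^ 2 = 2 * k * ρ * (k * ρ) := by ring
      _ ≤ 2 * k * ρ * (1 / (4 * L) / 2) := mul_le_mul_of_nonneg_left h7 (by positivity)
  · have hmo : mo m ρ v k = ‖br v (k : ℤ)‖ := by
      unfold mo
      rw [if_neg hd]
    rw [hmo]
    have hbr : br v (k : ℤ) = v ^ k - (v ^ k)⁻¹ := by
      unfold br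
      rw [zpow_neg, zpow_natCast]
    have h1 : ‖brR u (k : ℤ) - br v (k : ℤ)‖ ≤ 4 * (k * ρ) := by
      have e : brR u (k : ℤ) - br v (k : ℤ) =
          v ^ k * (Complex.exp (k * s) - 1) - (v ^ k)⁻¹ * (Complex.exp (-(k * s)) - 1) := by
        rw [hval, hbr]
        ring
      rw [e]
      refine (norm_sub_le _ _).trans ?_
      rw [norm_mul, norm_mul, norm_inv, hvk, inv_one, one_mul, one_mul]
      have h2 := Complex.norm_exp_sub_one_le (x := k * s) (by rw [hns]; linarith)
      have h3 := Complex.norm_exp_sub_one_le (x := -(k * s)) (by rw [norm_neg, hns]; linarith)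
      rw [norm_neg] at h3
      rw [hns] at h2 h3
      linarith
    have h2 := abs_norm_sub_norm_le (brR u (k : ℤ)) (br v (k : ℤ))
    refine h2.trans (h1.trans ?_)
    have h3 : 2 / (m : ℝ) ≤ ‖br v (k : ℤ)‖ := by
      rw [norm_br hv1]
      exact one_sub_ge hm (hv.pow (by omega) rfl) hd
    have h4 : 2 / L ≤ ‖br v (k : ℤ)‖ :=
      (div_le_div_of_nonneg_left (by norm_num) (by linarith) hmL).trans h3
    calc 4 * ((k : ℝ) * ρ) ≤ 4 * (L * ρ) := by
          have := mul_le_mul_of_nonneg_right hkL hρ0.le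
          linarith
      _ = 2 / L * (1 / (4 * L) / 2) := by
          have : ρ = 1 / (16 * L ^ 3) := hs
          rw [this]
          field_simp
          ring
      _ ≤ ‖br v (k : ℤ)‖ * (1 / (4 * L) / 2) :=
          mul_le_mul_of_nonneg_right h4 (by positivity)

/-- the norm of the quantum factorial -/
noncomputable def pn (u : ℂˣ) (a : ℕ) : ℝ := ∏ k ∈ range a, ‖brR u ((k : ℤ) + 1)‖

theorem pn_near {m i : ℕ} (hm : 1 ≤ m) {v s : ℂ} {u : ℂˣ} (hv : IsPrimitiveRoot v (2 * m))
    (hv1 : ‖v‖ = 1) (hs : ‖s‖ = 1 / (16 * ((m * (i + 1) : ℕ) : ℝ) ^ 3))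
    (hu : (u : ℂ) = v * Complex.exp s) (a : ℕ) : a < m * (i + 1) →
    (∏ k ∈ range a, mo m ‖s‖ v (k + 1)) *
        Real.exp (-(a * (1 / (4 * ((m * (i + 1) : ℕ) : ℝ))))) ≤ pn u a ∧
      pn u a ≤ (∏ k ∈ range a, mo m ‖s‖ v (k + 1)) *
        Real.exp (a * (1 / (4 * ((m * (i + 1) : ℕ) : ℝ)))) := by
  induction a with
  | zero =>
    intro _
    unfold pn
    simp
  | succ a ih =>
    intro ha
    obtain ⟨h1, h2⟩ := ih (by omega)
    obtain ⟨y, hy⟩ : ∃ y : ℝ, y = 1 / (4 * ((m * (i + 1) : ℕ) : ℝ)) := ⟨_, rfl⟩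
    rw [← hy] at h1 h2 ⊢
    have hL1 : (1 : ℝ) ≤ ((m * (i + 1) : ℕ) : ℝ) := by
      have : 1 ≤ m * (i + 1) := by omega
      exact_mod_cast this
    have hy0 : 0 ≤ y := by rw [hy]; positivity
    have hy1 : y ≤ 1 := by
      rw [hy, div_le_one (by positivity)]
      linarith
    have hf := factor_near hm hv hv1 hs hu (k := a + 1) (by omega) ha
    rw [← hy] at hf
    have hmo := mo_nonneg m (norm_nonneg s) v (a + 1)
    obtain ⟨h3, h4⟩ := near_exp hmo hy0 hy1 hf
    have e : pn u (a + 1) = pn u a * ‖brR u ((a + 1 : ℕ) : ℤ)‖ := by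
      unfold pn
      rw [Finset.prod_range_succ]
      push_cast
      rfl
    have hP : 0 ≤ ∏ k ∈ range a, mo m ‖s‖ v (k + 1) :=
      Finset.prod_nonneg fun k _ => mo_nonneg m (norm_nonneg s) v (k + 1)
    have hpn : 0 ≤ pn u a := by
      unfold pn
      exact Finset.prod_nonneg fun k _ => norm_nonneg _
    rw [e, Finset.prod_range_succ]
    have ea : ((a + 1 : ℕ) : ℝ) * y = a * y + y := by
      push_cast
      ring
    constructor
    · calc (∏ k ∈ range a, mo m ‖s‖ v (k + 1)) * mo m ‖s‖ v (a + 1) *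
            Real.exp (-(((a + 1 : ℕ) : ℝ) * y))
          = ((∏ k ∈ range a, mo m ‖s‖ v (k + 1)) * Real.exp (-(a * y))) *
            (mo m ‖s‖ v (a + 1) * Real.exp (-y)) := by
            rw [ea, neg_add, Real.exp_add]
            ring
        _ ≤ pn u a * ‖brR u ((a + 1 : ℕ) : ℤ)‖ :=
            mul_le_mul h1 h3 (by positivity) hpn
    · calc pn u a * ‖brR u ((a + 1 : ℕ) : ℤ)‖
          ≤ ((∏ k ∈ range a, mo m ‖s‖ v (k + 1)) * Real.exp (a * y)) *
            (mo m ‖s‖ v (a + 1) * Real.exp y) :=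
            mul_le_mul h2 h4 (norm_nonneg _) (by positivity)
        _ = (∏ k ∈ range a, mo m ‖s‖ v (k + 1)) * mo m ‖s‖ v (a + 1) *
            Real.exp (((a + 1 : ℕ) : ℝ) * y) := by
            rw [ea, Real.exp_add]
            ring

/-- the size of the quantum factorial -/
theorem pn_size {m i : ℕ} (hm : 1 ≤ m) {v s : ℂ} {u : ℂˣ} (hv : IsPrimitiveRoot v (2 * m))
    {D : ℝ} (hF : Fac m v D) (hs : ‖s‖ = 1 / (16 * ((m * (i + 1) : ℕ) : ℝ) ^ 3))
    (hu : (u : ℂ) = v * Complex.exp s) {a : ℕ} (ha : a < m * (i + 1)) :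
    (2 * (m : ℝ) ^ 2 * ‖s‖) ^ (a / m) * (a / m).factorial * Real.exp (-(D + 1 / 4)) ≤ pn u a ∧
      pn u a ≤ (2 * (m : ℝ) ^ 2 * ‖s‖) ^ (a / m) * (a / m).factorial * Real.exp (D + 1 / 4) := by
  obtain ⟨h1, h2⟩ := pn_near hm hv hF.1 hs hu a ha
  rw [prod_mo hm hv hF.1] at h1 h2
  have hL1 : (1 : ℝ) ≤ ((m * (i + 1) : ℕ) : ℝ) := by
    have : 1 ≤ m * (i + 1) := by omega
    exact_mod_cast this
  have haL : (a : ℝ) * (1 / (4 * ((m * (i + 1) : ℕ) : ℝ))) ≤ 1 / 4 := by
    rw [mul_one_div, div_le_iff₀ (by positivity)]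
    have : (a : ℝ) ≤ ((m * (i + 1) : ℕ) : ℝ) := by exact_mod_cast ha.le
    linarith
  obtain ⟨h3, h4⟩ := hF.2 (a % m) (Nat.mod_lt a (by omega))
  have hX : 0 ≤ (2 * (m : ℝ) ^ 2 * ‖s‖) ^ (a / m) * ((a / m).factorial : ℝ) := by positivity
  constructor
  · refine le_trans ?_ h1
    rw [mul_assoc ((2 * (m : ℝ) ^ 2 * ‖s‖) ^ (a / m) * ((a / m).factorial : ℝ))]
    refine mul_le_mul_of_nonneg_left ?_ hX
    rw [neg_add, Real.exp_add]
    refine mul_le_mul h3 (Real.exp_le_exp.2 (by linarith)) (Real.exp_pos _).le (norm_nonneg _)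
  · refine h2.trans ?_
    rw [mul_assoc ((2 * (m : ℝ) ^ 2 * ‖s‖) ^ (a / m) * ((a / m).factorial : ℝ))]
    refine mul_le_mul_of_nonneg_left ?_ hX
    rw [Real.exp_add]
    exact mul_le_mul h4 (Real.exp_le_exp.2 haL) (Real.exp_pos _).le (Real.exp_pos _).le

/-- the factorials -/
theorem fac_le (j n c : ℕ) (hc : c ≤ 1) :
    ((j + n + c).factorial : ℝ) ≤ 4 ^ (j + n + c) * (j.factorial * n.factorial) := by
  have h1 : ((j + n).factorial : ℝ) ≤ 2 ^ (j + n) * (j.factorial * n.factorial) := by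
    have h2 : (j + n).choose n * j.factorial * n.factorial = (j + n).factorial :=
      Nat.add_choose_mul_factorial_mul_factorial j n
    have h3 : (j + n).choose n ≤ 2 ^ (j + n) := Nat.choose_le_two_pow (j + n) n
    have h4 : (j + n).factorial ≤ 2 ^ (j + n) * (j.factorial * n.factorial) := by
      rw [← h2, mul_assoc]
      exact Nat.mul_le_mul_right _ h3
    exact_mod_cast h4
  have h24 : (2 : ℝ) ^ (j + n) * 2 ^ (j + n) = 4 ^ (j + n) := by
    rw [← mul_pow]
    norm_num
  have hpos : (0 : ℝ) < j.factorial * n.factorial := by positivity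
  have h2p : (1 : ℝ) ≤ 2 ^ (j + n) := one_le_pow₀ (by norm_num)
  rcases Nat.le_one_iff_eq_zero_or_eq_one.1 hc with rfl | rfl
  · rw [add_zero]
    refine h1.trans (mul_le_mul_of_nonneg_right ?_ hpos.le)
    rw [← h24]
    nlinarith
  · rw [Nat.factorial_succ, pow_succ]
    push_cast
    have h5 : ((j : ℝ) + n + 1) ≤ 2 * 2 ^ (j + n) := by
      have h6 : j + n < 2 ^ (j + n) := Nat.lt_two_pow_self
      have h7 : ((j + n : ℕ) : ℝ) < ((2 ^ (j + n) : ℕ) : ℝ) := by exact_mod_cast h6
      push_cast at h7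
      linarith
    calc ((j : ℝ) + n + 1) * ((j + n).factorial : ℝ)
        ≤ (2 * 2 ^ (j + n)) * (2 ^ (j + n) * (j.factorial * n.factorial)) :=
          mul_le_mul h5 h1 (by positivity) (by positivity)
      _ = 2 * (2 ^ (j + n) * 2 ^ (j + n)) * (j.factorial * n.factorial) := by ring
      _ ≤ 4 ^ (j + n) * 4 * (j.factorial * n.factorial) := by
          rw [h24]
          have : (0 : ℝ) < 4 ^ (j + n) := by positivity
          refine mul_le_mul_of_nonneg_right ?_ hpos.le
          linarith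

theorem fac_pow_le (a e i : ℕ) (h : a + e ≤ i) :
    (a + e).factorial ≤ a.factorial * (i + 1) ^ e := by
  induction e with
  | zero => simp
  | succ e ih =>
    rw [← add_assoc, Nat.factorial_succ, pow_succ]
    calc (a + e + 1) * (a + e).factorial ≤ (i + 1) * (a.factorial * (i + 1) ^ e) :=
          Nat.mul_le_mul (by omega) (ih (by omega))
      _ = a.factorial * ((i + 1) ^ e * (i + 1)) := by ring

/-- **Job SZ1.** -/
theorem sz1 : S_SZ1 := by
  intro m i v s D u hm hv hF hs hu
  have hm1 : (1 : ℝ) ≤ m := by exact_mod_cast hm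
  obtain ⟨x, hx⟩ : ∃ x : ℝ, x = 2 * (m : ℝ) ^ 2 * ‖s‖ := ⟨_, rfl⟩
  have hs0 : 0 < ‖s‖ := by
    rw [hs]
    have : 0 < m * (i + 1) := by positivity
    positivity
  have hx0 : 0 < x := by rw [hx]; positivity
  have hxi : x * ((i : ℝ) + 1) ≤ 1 := by
    have e : x * ((i : ℝ) + 1) = 1 / (8 * (m * ((i : ℝ) + 1) ^ 2)) := by
      rw [hx, hs]
      push_cast
      field_simp
      ring
    rw [e, div_le_one (by positivity)]
    have h1 : (1 : ℝ) ≤ (i : ℝ) + 1 := by linarith [Nat.cast_nonneg (α := ℝ) i]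
    nlinarith [one_le_pow₀ h1 (n := 2)]
  have hi0 : (0 : ℝ) ≤ i := Nat.cast_nonneg i
  have hx1 : x ≤ 1 := by nlinarith
  have hsz : ∀ a, a < m * (i + 1) →
      x ^ (a / m) * (a / m).factorial * Real.exp (-(D + 1 / 4)) ≤ pn u a ∧
        pn u a ≤ x ^ (a / m) * (a / m).factorial * Real.exp (D + 1 / 4) := by
    intro a ha
    rw [hx]
    exact pn_size hm hv hF hs hu ha
  have hpos : ∀ a, a < m * (i + 1) → 0 < pn u a := fun a ha =>
    lt_of_lt_of_le (by positivity) (hsz a ha).1
  have hdiv : ∀ a, a < m * (i + 1) → a / m ≤ i := by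
    intro a ha
    have : a / m < i + 1 := by
      rw [Nat.div_lt_iff_lt_mul (by omega)]
      rw [mul_comm]
      exact ha
    omega
  have hE : 0 < Real.exp (D + 1 / 4) := Real.exp_pos _
  have hEE : Real.exp (-(D + 1 / 4)) * Real.exp (D + 1 / 4) = 1 := by
    rw [← Real.exp_add]
    simp
  have hD : 0 ≤ D := by
    obtain ⟨h3, h4⟩ := hF.2 0 (by omega)
    have h5 := Real.exp_le_exp.1 (h3.trans h4)
    linarith
  constructor
  · intro a b ha
    rcases Nat.lt_or_ge a b with hab | hab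
    · rw [gb_of_lt u a b hab, norm_zero]
      positivity
    · obtain ⟨n, rfl⟩ : ∃ n, a = b + n := ⟨a - b, by omega⟩
      have hgp := congrArg norm (gb_prod u b n)
      rw [norm_mul, norm_prod, norm_prod] at hgp
      have e1 : ∏ t ∈ range n, ‖brR u ((t : ℤ) + 1)‖ = pn u n := rfl
      have e2 : pn u (b + n) = pn u b * ∏ t ∈ range n, ‖brR u ((b : ℤ) + 1 + t)‖ := by
        unfold pn
        rw [Finset.prod_range_add]
        congr 1
        refine Finset.prod_congr rfl fun t _ => ?_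
        congr 2
        push_cast
        ring
      have hb := hpos b (by omega)
      have hn := hpos n (by omega)
      have h1 : ‖gb u (b + n) b‖ * (pn u b * pn u n) = pn u (b + n) := by
        rw [e2, ← hgp, e1]
        ring
      obtain ⟨-, h2⟩ := hsz (b + n) ha
      obtain ⟨h3, -⟩ := hsz b (by omega)
      obtain ⟨h4, -⟩ := hsz n (by omega)
      -- the carry
      obtain ⟨c, hc, hce⟩ : ∃ c, c ≤ 1 ∧ (b + n) / m = b / m + n / m + c := by
        have h5 := Nat.div_add_mod b m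
        have h6 := Nat.div_add_mod n m
        have h7 := Nat.mod_lt b (show m > 0 by omega)
        have h8 := Nat.mod_lt n (show m > 0 by omega)
        have h9 : (b + n) / m = b / m + n / m + (b % m + n % m) / m := by
          have e : b + n = m * (b / m + n / m) + (b % m + n % m) := by
            rw [mul_add]
            omega
          conv_lhs => rw [e]
          rw [Nat.mul_add_div (by omega)]
        refine ⟨(b % m + n % m) / m, ?_, h9⟩
        have : (b % m + n % m) / m < 2 := by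
          rw [Nat.div_lt_iff_lt_mul (by omega)]
          omega
        omega
      have hfac := fac_le (b / m) (n / m) c hc
      have hq : b / m + n / m + c ≤ i := by
        rw [← hce]
        exact hdiv _ ha
      have h5 : pn u (b + n) ≤ 4 ^ (i + 1) * Real.exp (3 * D + 1) * (pn u b * pn u n) := by
        have h6 : x ^ ((b + n) / m) * ((b + n) / m).factorial * Real.exp (D + 1 / 4) ≤
            4 ^ (i + 1) * Real.exp (3 * D + 1) *
              ((x ^ (b / m) * (b / m).factorial * Real.exp (-(D + 1 / 4))) *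
                (x ^ (n / m) * (n / m).factorial * Real.exp (-(D + 1 / 4)))) := by
          rw [hce]
          have h7 : x ^ (b / m + n / m + c) ≤ x ^ (b / m) * x ^ (n / m) := by
            rw [← pow_add]
            exact pow_le_pow_of_le_one hx0.le hx1 (Nat.le_add_right _ _)
          have h8 : (4 : ℝ) ^ (b / m + n / m + c) ≤ 4 ^ (i + 1) :=
            pow_le_pow_right₀ (by norm_num) (by omega)
          have h9 : Real.exp (D + 1 / 4) ≤ Real.exp (3 * D + 1) *
              (Real.exp (-(D + 1 / 4)) * Real.exp (-(D + 1 / 4))) := by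
            rw [← Real.exp_add, ← Real.exp_add]
            refine Real.exp_le_exp.2 ?_
            linarith
          calc x ^ (b / m + n / m + c) * ((b / m + n / m + c).factorial : ℝ) *
                Real.exp (D + 1 / 4)
              ≤ (x ^ (b / m) * x ^ (n / m)) *
                (4 ^ (i + 1) * ((b / m).factorial * (n / m).factorial)) *
                (Real.exp (3 * D + 1) *
                  (Real.exp (-(D + 1 / 4)) * Real.exp (-(D + 1 / 4)))) := by
                refine mul_le_mul (mul_le_mul h7 (hfac.trans ?_) (by positivity)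
                  (by positivity)) h9 (by positivity) (by positivity)
                exact mul_le_mul_of_nonneg_right h8 (by positivity)
            _ = _ := by ring
        refine h2.trans (h6.trans ?_)
        refine mul_le_mul_of_nonneg_left ?_ (by positivity)
        exact mul_le_mul h3 h4 (by positivity) hb.le
      rw [← h1] at h5
      exact le_of_mul_le_mul_right h5 (mul_pos hb hn)
  · intro c k hk hc
    obtain ⟨d, rfl⟩ : ∃ d, c = d + k := ⟨c - k, by omega⟩
    have e1 : ‖∏ t ∈ range k, brR u (((d + k : ℕ) : ℤ) - t)‖ =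
        ∏ t ∈ range k, ‖brR u (((d + t : ℕ) : ℤ) + 1)‖ := by
      rw [norm_prod, ← Finset.prod_range_reflect]
      refine Finset.prod_congr rfl fun t ht => ?_
      rw [Finset.mem_range] at ht
      congr 2
      have : ((k - 1 - t : ℕ) : ℤ) = (k : ℤ) - 1 - t := by omega
      rw [this]
      push_cast
      ring
    have e2 : pn u (d + k) = pn u d * ∏ t ∈ range k, ‖brR u (((d + t : ℕ) : ℤ) + 1)‖ := by
      unfold pn
      rw [Finset.prod_range_add]
    rw [e1]
    have hd := hpos d (by omega)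
    obtain ⟨-, h2⟩ := hsz (d + k) hc
    obtain ⟨h3, -⟩ := hsz d (by omega)
    have hle : d / m ≤ (d + k) / m := Nat.div_le_div_right (by omega)
    obtain ⟨e, he⟩ : ∃ e, (d + k) / m = d / m + e := ⟨(d + k) / m - d / m, by omega⟩
    have hi : d / m + e ≤ i := by
      rw [← he]
      exact hdiv _ hc
    have h5 : pn u (d + k) ≤ pn u d * Real.exp (2 * D + 1) := by
      have h6 : x ^ ((d + k) / m) * ((d + k) / m).factorial * Real.exp (D + 1 / 4) ≤
          (x ^ (d / m) * (d / m).factorial * Real.exp (-(D + 1 / 4))) *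
            Real.exp (2 * D + 1) := by
        rw [he]
        have h7 : ((d / m + e).factorial : ℝ) ≤ (d / m).factorial * ((i : ℝ) + 1) ^ e := by
          have h8 : (d / m + e).factorial ≤ (d / m).factorial * (i + 1) ^ e := by
            exact fac_pow_le (d / m) e i hi
          exact_mod_cast h8
        have h9 : Real.exp (D + 1 / 4) ≤ Real.exp (-(D + 1 / 4)) * Real.exp (2 * D + 1) := by
          rw [← Real.exp_add]
          refine Real.exp_le_exp.2 ?_
          linarith
        have h10 : x ^ e * ((i : ℝ) + 1) ^ e ≤ 1 := by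
          rw [← mul_pow]
          exact pow_le_one₀ (by positivity) hxi
        calc x ^ (d / m + e) * ((d / m + e).factorial : ℝ) * Real.exp (D + 1 / 4)
            ≤ x ^ (d / m + e) * ((d / m).factorial * ((i : ℝ) + 1) ^ e) *
              (Real.exp (-(D + 1 / 4)) * Real.exp (2 * D + 1)) := by
              refine mul_le_mul (mul_le_mul_of_nonneg_left h7 (by positivity)) h9
                (by positivity) (by positivity)
          _ = (x ^ e * ((i : ℝ) + 1) ^ e) * (x ^ (d / m) * (d / m).factorial *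
              Real.exp (-(D + 1 / 4)) * Real.exp (2 * D + 1)) := by
              rw [pow_add]
              ring
          _ ≤ 1 * (x ^ (d / m) * (d / m).factorial *
              Real.exp (-(D + 1 / 4)) * Real.exp (2 * D + 1)) :=
              mul_le_mul_of_nonneg_right h10 (by positivity)
          _ = _ := one_mul _
      refine h2.trans (h6.trans ?_)
      exact mul_le_mul_of_nonneg_right h3 (by positivity)
    rw [e2] at h5
    exact le_of_mul_le_mul_left h5 hd

end Pool.Agent.Q128.KX
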